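import Mathlib

/-!
The first Grigorchuk group is a quotient of the fundamental group of the closed orientable
surface of genus 2.
-/

set_option autoImplicit false

namespace Pool.Agent.Results.MP_a9f5dc_al.GenusTwo

/-- The rooted binary tree `T`: its vertices are the finite words over `{0,1}` (here
`false = 0` and `true = 1`), and a word `w` is joined to `w0` and to `w1`. -/
def tree : SimpleGraph (List Bool) where
  Adj v w := (∃ x : Bool, w = v ++ [x]) ∨ (∃ x : Bool, v = w ++ [x])
  symm := ⟨fun _ _ h => h.symm⟩
  loopless := ⟨fun v h => by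
    rcases h with ⟨x, h⟩ | ⟨x, h⟩ <;>
    · have := congrArg List.length h
      simp at this⟩

/-- The action of the generator `a`: `a(0w) = 1w`, `a(1w) = 0w`. -/
def actA : List Bool → List Bool
  | [] => []
  | x :: w => (!x) :: w

/-- The index `0, 1, 2` stands for `b, c, d`:
`b(0w) = 0 a(w)`, `b(1w) = 1 c(w)`, `c(0w) = 0 a(w)`, `c(1w) = 1 d(w)`,
`d(0w) = 0w`, `d(1w) = 1 b(w)`. -/
def actBCD : Fin 3 → List Bool → List Bool
  | _, [] => []
  | 0, false :: w => false :: actA w
  | 0, true :: w => true :: actBCD 1 w
  | 1, false :: w => false :: actA w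
  | 1, true :: w => true :: actBCD 2 w
  | 2, false :: w => false :: w
  | 2, true :: w => true :: actBCD 0 w

theorem actA_actA (w : List Bool) : actA (actA w) = w := by
  cases w <;> simp [actA]

theorem actBCD_actBCD (w : List Bool) : ∀ i : Fin 3, actBCD i (actBCD i w) = w := by
  induction w with
  | nil => intro i; fin_cases i <;> simp [actBCD]
  | cons x w ih =>
    intro i
    fin_cases i <;> cases x <;> simp [actBCD, actA_actA, ih]

theorem actA_append (w : List Bool) (x : Bool) (hw : w ≠ []) :
    actA (w ++ [x]) = actA w ++ [x] := by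
  cases w with
  | nil => exact absurd rfl hw
  | cons y w => simp [actA]

/-- Every one of the maps below sends a child of `w` to a child of the image of `w`. -/
theorem actA_child (w : List Bool) (x : Bool) : ∃ y : Bool, actA (w ++ [x]) = actA w ++ [y] := by
  cases w with
  | nil => exact ⟨!x, by simp [actA]⟩
  | cons y w => exact ⟨x, by simp [actA]⟩

theorem actBCD_child (w : List Bool) :
    ∀ (i : Fin 3) (x : Bool), ∃ y : Bool, actBCD i (w ++ [x]) = actBCD i w ++ [y] := by
  induction w with
  | nil =>
    intro i x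
    refine ⟨x, ?_⟩
    fin_cases i <;> cases x <;> simp [actBCD, actA]
  | cons z w ih =>
    intro i x
    obtain ⟨y0, h0⟩ := actA_child w x
    obtain ⟨y1, h1⟩ := ih 0 x
    obtain ⟨y2, h2⟩ := ih 1 x
    obtain ⟨y3, h3⟩ := ih 2 x
    fin_cases i <;> cases z
    · exact ⟨y0, by simp [actBCD, h0]⟩
    · exact ⟨y2, by simp [actBCD, h2]⟩
    · exact ⟨y0, by simp [actBCD, h0]⟩
    · exact ⟨y3, by simp [actBCD, h3]⟩
    · exact ⟨x, by simp [actBCD]⟩
    · exact ⟨y1, by simp [actBCD, h1]⟩

/-- A self-inverse map of words that sends children to children is an automorphism of the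
tree. -/
def autOfInvolution (f : List Bool → List Bool) (hf : ∀ w, f (f w) = w)
    (hc : ∀ w x, ∃ y : Bool, f (w ++ [x]) = f w ++ [y]) : tree ≃g tree where
  toFun := f
  invFun := f
  left_inv := hf
  right_inv := hf
  map_rel_iff' := by
    have key : ∀ v w : List Bool, tree.Adj v w → tree.Adj (f v) (f w) := by
      rintro v w (⟨x, rfl⟩ | ⟨x, rfl⟩)
      · exact Or.inl (hc v x)
      · exact Or.inr (hc w x)
    intro v w
    constructor
    · intro h
      have := key _ _ h
      simpa [hf] using this
    · exact key v w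

/-- The automorphism `a` of the tree. -/
def a : tree ≃g tree := autOfInvolution actA actA_actA actA_child

/-- The automorphism `b` of the tree. -/
def b : tree ≃g tree :=
  autOfInvolution (actBCD 0) (fun w => actBCD_actBCD w 0) (fun w => actBCD_child w 0)

/-- The automorphism `c` of the tree. -/
def c : tree ≃g tree :=
  autOfInvolution (actBCD 1) (fun w => actBCD_actBCD w 1) (fun w => actBCD_child w 1)

/-- The automorphism `d` of the tree. -/
def d : tree ≃g tree :=
  autOfInvolution (actBCD 2) (fun w => actBCD_actBCD w 2) (fun w => actBCD_child w 2)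

/-- The first Grigorchuk group: the subgroup of the automorphism group of the tree generated by
`a, b, c, d`. -/
def Grigorchuk : Subgroup (tree ≃g tree) := Subgroup.closure {a, b, c, d}

/-- The commutator `[x, y] = x y x⁻¹ y⁻¹`. -/
def comm {G : Type} [Group G] (x y : G) : G := x * y * x⁻¹ * y⁻¹

/-- The relator `[x_1, y_1] ⋯ [x_g, y_g]` (here `(i, false)` is `x_i` and `(i, true)` is `y_i`). -/
def surfaceRelator (g : ℕ) : FreeGroup (Fin g × Bool) :=
  (List.ofFn fun i : Fin g => comm (FreeGroup.of (i, false)) (FreeGroup.of (i, true))).prod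

/-- The fundamental group of the closed orientable surface of genus `g`. -/
abbrev SurfaceGroup (g : ℕ) : Type := PresentedGroup {surfaceRelator g}

theorem bc_comm_aux (w : List Bool) :
    actBCD 0 (actBCD 1 w) = actBCD 1 (actBCD 0 w) ∧
    actBCD 1 (actBCD 2 w) = actBCD 2 (actBCD 1 w) ∧
    actBCD 0 (actBCD 2 w) = actBCD 2 (actBCD 0 w) := by
  induction w with
  | nil => simp [actBCD]
  | cons x w ih =>
    obtain ⟨h1, h2, h3⟩ := ih
    cases x <;> simp [actBCD, h1, h2, h3]

theorem bc_comm : b * c = c * b := by
  ext1 w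
  exact (bc_comm_aux w).1

theorem bc_eq_aux (w : List Bool) :
    actBCD 0 (actBCD 1 w) = actBCD 2 w ∧
    actBCD 1 (actBCD 2 w) = actBCD 0 w ∧
    actBCD 2 (actBCD 0 w) = actBCD 1 w := by
  induction w with
  | nil => simp [actBCD]
  | cons x w ih =>
    obtain ⟨h1, h2, h3⟩ := ih
    cases x <;> simp [actBCD, h1, h2, h3, actA_actA]

theorem d_eq : d = b * c := by
  ext1 w
  exact (bc_eq_aux w).1.symm

theorem a_mem : a ∈ Grigorchuk := Subgroup.subset_closure (by simp)
theorem b_mem : b ∈ Grigorchuk := Subgroup.subset_closure (by simp)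
theorem c_mem : c ∈ Grigorchuk := Subgroup.subset_closure (by simp)

/-- The images of the generators of `S_2`: `x_1 ↦ b`, `y_1 ↦ c`, `x_2 ↦ a`, `y_2 ↦ 1`. -/
noncomputable def img : Fin 2 × Bool → Grigorchuk
  | (0, false) => ⟨b, b_mem⟩
  | (0, true) => ⟨c, c_mem⟩
  | (1, false) => ⟨a, a_mem⟩
  | (1, true) => 1

/-- The first Grigorchuk group is a quotient of the fundamental group `S_2` of the closed
orientable surface of genus 2. -/
theorem result : ∃ φ : SurfaceGroup 2 →* Grigorchuk, Function.Surjective φ := by
  have hrel : ∀ r ∈ ({surfaceRelator 2} : Set (FreeGroup (Fin 2 × Bool))),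
      FreeGroup.lift img r = 1 := by
    intro r hr
    rw [Set.mem_singleton_iff] at hr
    subst hr
    have hbc : img (0, false) * img (0, true) = img (0, true) * img (0, false) :=
      Subtype.ext bc_comm
    have h2 : img (1, true) = 1 := rfl
    have h1 : img (0, false) * img (0, true) * (img (0, false))⁻¹ * (img (0, true))⁻¹ = 1 := by
      rw [hbc]; group
    simp only [surfaceRelator, List.ofFn_succ, List.ofFn_zero, List.prod_cons, List.prod_nil,
      map_mul, map_inv, comm, FreeGroup.lift_apply_of, map_one, mul_one]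
    change img (0, false) * img (0, true) * (img (0, false))⁻¹ * (img (0, true))⁻¹ *
      (img (1, false) * img (1, true) * (img (1, false))⁻¹ * (img (1, true))⁻¹) = 1
    rw [h1, h2]
    group
  refine ⟨PresentedGroup.toGroup hrel, ?_⟩
  rw [← MonoidHom.range_eq_top, eq_top_iff]
  rintro ⟨g, hg⟩ -
  have him : ∀ p, img p ∈ (PresentedGroup.toGroup hrel).range := fun p =>
    ⟨PresentedGroup.of p, PresentedGroup.toGroup.of hrel⟩
  have key : Subgroup.closure {a, b, c, d} ≤
      ((PresentedGroup.toGroup hrel).range).map Grigorchuk.subtype := by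
    rw [Subgroup.closure_le]
    have ha : a ∈ ((PresentedGroup.toGroup hrel).range).map Grigorchuk.subtype :=
      ⟨⟨a, a_mem⟩, him (1, false), rfl⟩
    have hb : b ∈ ((PresentedGroup.toGroup hrel).range).map Grigorchuk.subtype :=
      ⟨⟨b, b_mem⟩, him (0, false), rfl⟩
    have hc : c ∈ ((PresentedGroup.toGroup hrel).range).map Grigorchuk.subtype :=
      ⟨⟨c, c_mem⟩, him (0, true), rfl⟩
    have hd : d ∈ ((PresentedGroup.toGroup hrel).range).map Grigorchuk.subtype := by
      rw [d_eq]; exact Subgroup.mul_mem _ hb hc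
    rintro x hx
    simp only [Set.mem_insert_iff, Set.mem_singleton_iff] at hx
    rcases hx with rfl | rfl | rfl | rfl
    · exact ha
    · exact hb
    · exact hc
    · exact hd
  obtain ⟨y, hy, hyg⟩ := key hg
  have : y = ⟨g, hg⟩ := Subtype.ext hyg
  rw [← this]
  exact hy

end Pool.Agent.Results.MP_a9f5dc_al.GenusTwo
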